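import Pool.Agent.helper58.CRO.SpecB

/-!
# Row cro:TYP: typical geodesics
-/

open scoped Manifold ContDiff Topology ENNReal
open MeasureTheory Set

noncomputable section

namespace Pool.Agent.CRO

theorem TYP_c (d a l : ℝ) (hd : 0 < d) (hd1 : d < 1) (ha : 0 < a) (hal : a ≤ l) :
    Real.sqrt d ≤ Real.sqrt (1 - ((1 - d) * a / l) ^ 2) ∧
    Real.sqrt (1 - ((1 - d) * a / l) ^ 2) ≤ 1 ∧
    Real.sqrt (1 - Real.sqrt (1 - ((1 - d) * a / l) ^ 2) ^ 2) = (1 - d) * a / l := by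
  have hl : 0 < l := lt_of_lt_of_le ha hal
  have hx0 : 0 ≤ (1 - d) * a / l := by
    have : 0 ≤ 1 - d := by linarith
    positivity
  have hx1 : (1 - d) * a / l ≤ 1 - d := by
    rw [div_le_iff₀ hl]
    exact mul_le_mul_of_nonneg_left hal (by linarith)
  have hsq : ((1 - d) * a / l) ^ 2 ≤ 1 - d := by nlinarith
  refine ⟨Real.sqrt_le_sqrt (by linarith), ?_, ?_⟩
  · rw [Real.sqrt_le_one]
    have := sq_nonneg ((1 - d) * a / l)
    linarith
  · rw [Real.sq_sqrt (by linarith)]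
    have : 1 - (1 - ((1 - d) * a / l) ^ 2) = ((1 - d) * a / l) ^ 2 := by ring
    rw [this, Real.sqrt_sq hx0]

theorem TYP_iota (n : ℕ) : MeasurePreserving (fun z : PS n => (z.1, -z.2))
    (volume : Measure (PS n)) (volume : Measure (PS n)) := by
  have := (MeasurePreserving.id (volume : Measure (En n))).prod
    (Measure.measurePreserving_neg (volume : Measure (En n)))
  exact this

theorem TYP_nrm {n : ℕ} {r0 : ℝ} (𝒢 : NChart n r0) (ρ : ℝ) (z : PS n) :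
    ((z.1, -z.2) : PS n) ∈ ZZ 𝒢 ρ ↔ z ∈ ZZ 𝒢 ρ := by
  unfold ZZ nrm2
  simp only [Set.mem_setOf_eq, map_neg, inner_neg_neg]

/-- the forward estimate, from HIT -/
theorem TYP_fwd (h4 : HIT_stmt) (h5 : SPD_stmt) (h6 : DNM_stmt) (n : ℕ) (r0 r1 : ℝ)
    (𝒢 : NChart n r0) (H : PS n → ℝ) (Φ : ℝ → PS n → PS n) (hΦ : IsGFlow 𝒢 r1 H Φ)
    (N k : ℕ) (h U b d : ℝ) (c : ℕ → ℝ) (hk : 1 ≤ k) (hh : 0 < h) (hU : 0 ≤ U)
    (hr1 : (k : ℝ) * h + U ≤ r1) (hb : 0 < b) (hd : 0 < d)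
    (hc : ∀ j, k < j → j ≤ N → Real.sqrt d ≤ c j ∧ c j ≤ 1)
    (β : Set (PS n)) (hβm : MeasurableSet β)
    (hβ : ∀ j, k < j → j ≤ N → ∀ z ∈ ZZ 𝒢 (j * h), c j * ‖z.1‖ ≤ inner ℝ z.1 z.2 → z ∈ β)
    (z : PS n) (hz : z ∈ ZZ 𝒢 (k * h))
    (hvol : volume {u ∈ Icc 0 U | Φ u z ∈ β} ≤ ENNReal.ofReal b) :
    ∀ j, k < j → j ≤ N → ∀ u ∈ Icc 0 U,
      u < (∑ i ∈ Finset.Ioc k j, h / c i) - b / Real.sqrt d → ‖(Φ u z).1‖ < j * h := by
  have hcont : Continuous fun s => Φ s z :=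
    hΦ.cont.comp (continuous_id.prodMk continuous_const)
  have hspd : ∀ s, |s| ≤ U → ‖(Φ s z).1‖ < r1 ∧ nrm2 𝒢 (Φ s z) = nrm2 𝒢 z := by
    intro s hs
    obtain ⟨e1, e2⟩ := h5 n r0 r1 𝒢 H Φ hΦ z (k * h) s hz (by linarith)
    exact ⟨by linarith, e2⟩
  have hn1 : nrm2 𝒢 z < 1 := hz.2
  have huIcc : ∀ u ∈ Ioo (0 : ℝ) U, ∀ s ∈ uIcc (0 : ℝ) u, ‖(Φ s z).1‖ < r1 := by
    intro u hu s hs
    rw [uIcc_of_le hu.1.le] at hs
    exact (hspd s (by rw [abs_of_nonneg hs.1]; linarith [hs.2, hu.2])).1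
  refine h4 N k h U b d c (fun s => ‖(Φ s z).1‖)
    (fun s => inner ℝ (Φ s z).1 (Φ s z).2 / ‖(Φ s z).1‖) {u ∈ Icc 0 U | Φ u z ∈ β} hh hk hd hb.le
    hc ?_ hvol ?_ ?_ ?_ ?_
  · exact measurableSet_Icc.inter (hcont.measurable hβm)
  · exact (hcont.fst.norm).continuousOn
  · show ‖(Φ 0 z).1‖ < k * h
    rw [hΦ.zero z]
    exact hz.1
  · intro u hu hpos
    have hne : (Φ u z).1 ≠ 0 := norm_pos_iff.1 hpos
    obtain ⟨e1, e2⟩ := h6 n r0 r1 𝒢 H Φ hΦ z u hn1 (huIcc u hu) hne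
    exact ⟨e1, e2.le⟩
  · intro u hu hnot j hkj hjN hpos hlt
    have hmem : Φ u z ∈ ZZ 𝒢 (j * h) := by
      refine ⟨hlt, ?_⟩
      rw [(hspd u (by rw [abs_of_nonneg hu.1.le]; exact hu.2.le)).2]
      exact hn1
    have hnb : Φ u z ∉ β := fun hmb => hnot ⟨⟨hu.1.le, hu.2.le⟩, hmb⟩
    have hlt' : inner ℝ (Φ u z).1 (Φ u z).2 < c j * ‖(Φ u z).1‖ := by
      by_contra hcon
      exact hnb (hβ j hkj hjN _ hmem (not_lt.1 hcon))
    show inner ℝ (Φ u z).1 (Φ u z).2 / ‖(Φ u z).1‖ ≤ c j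
    have hpos' : 0 < ‖(Φ u z).1‖ := hpos
    rw [div_le_iff₀ hpos']
    exact hlt'.le

theorem TYP (h1 : BAD_stmt) (h2 : VOL_stmt) (h3 : AVG_stmt) (h4 : HIT_stmt) (h5 : SPD_stmt)
    (h6 : DNM_stmt) (h7 : REV_stmt) : TYP_stmt := by
  intro n r0 r1 𝒢 H Φ hn hΦ N k h U b d om lam hk hkN hh hNr hU hr1 hb hd hd1 hom hlam hmono hbig
  have hk0 : (0 : ℝ) < k := by exact_mod_cast hk
  have hN0 : (0 : ℝ) < N := by exact_mod_cast (lt_of_le_of_lt (Nat.zero_le k) hkN)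
  have hjr : ∀ j : ℕ, j ≤ N → (j : ℝ) * h < r0 := by
    intro j hj
    have : (j : ℝ) ≤ N := by exact_mod_cast hj
    nlinarith
  obtain ⟨hlk, hVk⟩ := hlam k hk hkN.le
  set c : ℕ → ℝ := fun i => Real.sqrt (1 - ((1 - d) * lam k / lam i) ^ 2) with hcdef
  have hc : ∀ j, k < j → j ≤ N → Real.sqrt d ≤ c j ∧ c j ≤ 1 ∧
      Real.sqrt (1 - c j ^ 2) = (1 - d) * lam k / lam j := by
    intro j hkj hjN
    exact TYP_c d (lam k) (lam j) hd hd1 hlk (hmono j hkj.le hjN)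
  obtain ⟨hAm, hAv⟩ := h2 n r0 𝒢 (k * h) hn (hjr k hkN.le)
  set A := ZZ 𝒢 (k * h) with hA
  -- the bad sets
  set Bad : ℕ → Set (PS n) :=
    fun j => {z : PS n | z ∈ ZZ 𝒢 (j * h) ∧ c j * ‖z.1‖ ≤ inner ℝ z.1 z.2} with hBad
  have hBadm : ∀ j, k < j → j ≤ N → MeasurableSet (Bad j) ∧
      volume (Bad j) ≤ ENNReal.ofReal ((1 - d) ^ n) * volume A := by
    intro j hkj hjN
    obtain ⟨hc1, hc2, hc3⟩ := hc j hkj hjN
    obtain ⟨e1, e2⟩ := h1 n r0 𝒢 (j * h) (c j) hn (hjr j hjN)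
      (le_trans (Real.sqrt_nonneg d) hc1) hc2
    refine ⟨e1, e2.trans (le_of_eq ?_)⟩
    obtain ⟨hlj, hVj⟩ := hlam j (by omega) hjN
    rw [hAv, ← ENNReal.ofReal_mul (by have : 0 ≤ 1 - d := by linarith
                                      positivity), hc3, hVj, hVk]
    congr 1
    rw [div_pow, mul_pow]
    field_simp
  set β : Set (PS n) := ⋃ j ∈ Finset.Ioc k N, Bad j with hβdef
  have hβm : MeasurableSet β := by
    refine Finset.measurableSet_biUnion _ fun j hj => ?_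
    rw [Finset.mem_Ioc] at hj
    exact (hBadm j hj.1 hj.2).1
  have hβv : volume β ≤ (N : ℝ≥0∞) * (ENNReal.ofReal ((1 - d) ^ n) * volume A) := by
    refine (measure_biUnion_finset_le _ _).trans ?_
    refine (Finset.sum_le_sum (g := fun _ => ENNReal.ofReal ((1 - d) ^ n) * volume A) ?_).trans ?_
    · intro j hj
      rw [Finset.mem_Ioc] at hj
      exact (hBadm j hj.1 hj.2).2
    · rw [Finset.sum_const, nsmul_eq_mul, Nat.card_Ioc]
      refine mul_le_mul_left ?_ _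
      exact_mod_cast Nat.sub_le N k
  obtain ⟨A1, hA1s, hA1m, hA1v, hA1t⟩ := h3 n Φ hΦ.cont hΦ.mp A β U b hAm hβm hU hb
  -- the measure of the exceptional set
  have hAfin : volume A ≠ (⊤ : ℝ≥0∞) := by rw [hAv]; exact ENNReal.ofReal_ne_top
  have hexc : volume (A \ A1) ≤ ENNReal.ofReal (1 / 8) * volume A := by
    have hb0 : ENNReal.ofReal b ≠ 0 := by rw [Ne, ENNReal.ofReal_eq_zero, not_le]; exact hb
    have hstep : ENNReal.ofReal b * volume (A \ A1) ≤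
        ENNReal.ofReal b * (ENNReal.ofReal (1 / 8) * volume A) := by
      calc ENNReal.ofReal b * volume (A \ A1) ≤ ENNReal.ofReal U * volume β := hA1v
        _ ≤ ENNReal.ofReal U * ((N : ℝ≥0∞) * (ENNReal.ofReal ((1 - d) ^ n) * volume A)) :=
          mul_le_mul_right hβv _
        _ = ENNReal.ofReal (U * (N * (1 - d) ^ n)) * volume A := by
          rw [ENNReal.ofReal_mul hU, ENNReal.ofReal_mul hN0.le, ENNReal.ofReal_natCast]
          ring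
        _ ≤ ENNReal.ofReal (b * (1 / 8)) * volume A := by
          refine mul_le_mul_left (ENNReal.ofReal_le_ofReal ?_) _
          nlinarith [hbig]
        _ = ENNReal.ofReal b * (ENNReal.ofReal (1 / 8) * volume A) := by
          rw [ENNReal.ofReal_mul hb.le]
          ring
    exact (ENNReal.mul_le_mul_iff_right hb0 ENNReal.ofReal_ne_top).1 hstep
  set ι : PS n → PS n := fun z => (z.1, -z.2) with hι
  have hιA : ι ⁻¹' A = A := by
    ext z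
    exact TYP_nrm 𝒢 (k * h) z
  have hιm : MeasurePreserving ι (volume : Measure (PS n)) (volume : Measure (PS n)) := TYP_iota n
  have hexc2 : volume (A \ (A1 ∩ ι ⁻¹' A1)) ≤ ENNReal.ofReal (1 / 4) * volume A := by
    have hsub : A \ (A1 ∩ ι ⁻¹' A1) ⊆ (A \ A1) ∪ ι ⁻¹' (A \ A1) := by
      intro z hz
      by_cases hz1 : z ∈ A1
      · right
        refine ⟨?_, fun hz2 => hz.2 ⟨hz1, hz2⟩⟩
        have : z ∈ ι ⁻¹' A := by rw [hιA]; exact hz.1
        exact this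
      · left
        exact ⟨hz.1, hz1⟩
    calc volume (A \ (A1 ∩ ι ⁻¹' A1)) ≤ volume ((A \ A1) ∪ ι ⁻¹' (A \ A1)) := measure_mono hsub
      _ ≤ volume (A \ A1) + volume (ι ⁻¹' (A \ A1)) := measure_union_le _ _
      _ = volume (A \ A1) + volume (A \ A1) := by
        rw [hιm.measure_preimage (hAm.diff hA1m).nullMeasurableSet]
      _ ≤ ENNReal.ofReal (1 / 8) * volume A + ENNReal.ofReal (1 / 8) * volume A :=
        add_le_add hexc hexc
      _ = ENNReal.ofReal (1 / 4) * volume A := by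
        rw [← add_mul, ← ENNReal.ofReal_add (by norm_num) (by norm_num)]
        norm_num
  refine ⟨A1 ∩ ι ⁻¹' A1, fun z hz => hA1s hz.1, hA1m.inter (hιm.measurable hA1m), ?_, ?_⟩
  · -- volume
    have hle : volume A ≤ volume (A1 ∩ ι ⁻¹' A1) + ENNReal.ofReal (1 / 4) * volume A := by
      calc volume A ≤ volume ((A1 ∩ ι ⁻¹' A1) ∪ (A \ (A1 ∩ ι ⁻¹' A1))) := by
            refine measure_mono fun z hz => ?_
            by_cases hz1 : z ∈ A1 ∩ ι ⁻¹' A1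
            · exact Or.inl hz1
            · exact Or.inr ⟨hz, hz1⟩
        _ ≤ volume (A1 ∩ ι ⁻¹' A1) + volume (A \ (A1 ∩ ι ⁻¹' A1)) := measure_union_le _ _
        _ ≤ volume (A1 ∩ ι ⁻¹' A1) + ENNReal.ofReal (1 / 4) * volume A :=
          add_le_add le_rfl hexc2
    have hA'fin : volume (A1 ∩ ι ⁻¹' A1) ≠ (⊤ : ℝ≥0∞) :=
      ne_top_of_le_ne_top hAfin (measure_mono fun z hz => hA1s hz.1)
    have hw : volume A = ENNReal.ofReal (volume A).toReal := (ENNReal.ofReal_toReal hAfin).symm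
    have hv : volume (A1 ∩ ι ⁻¹' A1) = ENNReal.ofReal (volume (A1 ∩ ι ⁻¹' A1)).toReal :=
      (ENNReal.ofReal_toReal hA'fin).symm
    have hw0 : 0 ≤ (volume A).toReal := ENNReal.toReal_nonneg
    have hv0 : 0 ≤ (volume (A1 ∩ ι ⁻¹' A1)).toReal := ENNReal.toReal_nonneg
    rw [hw, hv, ← ENNReal.ofReal_mul (by norm_num), ← ENNReal.ofReal_add hv0 (by positivity),
      ENNReal.ofReal_le_ofReal_iff (by positivity)] at hle
    rw [hw, hv, ← ENNReal.ofReal_mul (by norm_num)]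
    refine ENNReal.ofReal_le_ofReal ?_
    linarith
  · rintro z ⟨hz1, hz2⟩ j hkj hjN u huU hu
    have hfwd : ∀ y ∈ A1, ∀ u ∈ Icc (0 : ℝ) U,
        u < (∑ i ∈ Finset.Ioc k j, h / c i) - b / Real.sqrt d → ‖(Φ u y).1‖ < j * h := by
      intro y hy
      refine TYP_fwd h4 h5 h6 n r0 r1 𝒢 H Φ hΦ N k h U b d c hk hh hU hr1 hb hd
        (fun j hkj hjN => ⟨(hc j hkj hjN).1, (hc j hkj hjN).2.1⟩) β hβm ?_ y (hA1s hy)
        (hA1t y hy) j hkj hjN
      intro i hki hiN w hw hcw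
      rw [hβdef, Set.mem_iUnion₂]
      exact ⟨i, Finset.mem_Ioc.2 ⟨hki, hiN⟩, hw, hcw⟩
    rcases le_total 0 u with hu0 | hu0
    · rw [abs_of_nonneg hu0] at huU hu
      exact hfwd z hz1 u ⟨hu0, huU⟩ hu
    · rw [abs_of_nonpos hu0] at huU hu
      have hrev := h7 n r0 r1 𝒢 H Φ hΦ z (k * h) (-u) (hA1s hz1)
        (by rw [abs_neg, abs_of_nonpos hu0]; linarith)
      rw [neg_neg] at hrev
      rw [hrev]
      exact hfwd (ι z) hz2 (-u) ⟨by linarith, huU⟩ hu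

end Pool.Agent.CRO
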