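import Pool.Agent.helper58.CRO.SpecD

/-!
# Row cro:NCH: the normal chart data of a normal chart
-/

open scoped Manifold ContDiff Topology ENNReal
open MeasureTheory Set Bundle

noncomputable section

namespace Pool.Agent.CRO

universe u

theorem NCH_gop_sum {n : ℕ} {M : Type u} [TopologicalSpace M] [ChartedSpace (En n) M]
    [IsManifold (𝓡 n) ∞ M] (g : RMetric n M) (e : OpenPartialHomeomorph M (En n)) (y : En n) :
    gop g e y = ∑ i : Fin n, ∑ j : Fin n,
      coef g e y (EuclideanSpace.single i 1) (EuclideanSpace.single j 1) •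
        (Matrix.toEuclideanCLM (𝕜 := ℝ) (Matrix.single i j (1 : ℝ)) : En n →L[ℝ] En n) := by
  unfold gop
  conv_lhs => rw [Matrix.matrix_eq_sum_single (gmat g e y)]
  rw [map_sum]
  refine Finset.sum_congr rfl fun i _ => ?_
  rw [map_sum]
  refine Finset.sum_congr rfl fun j _ => ?_
  rw [← map_smul]
  congr 1
  rw [Matrix.smul_single, smul_eq_mul, mul_one]
  rfl

theorem NCH_gop_smooth (h1 : COE_stmt.{u}) {n : ℕ} {M : Type u} [TopologicalSpace M]
    [ChartedSpace (En n) M] [IsManifold (𝓡 n) ∞ M] (g : RMetric n M)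
    (e : OpenPartialHomeomorph M (En n)) (he : e ∈ IsManifold.maximalAtlas (𝓡 n) ∞ M) :
    ContDiffOn ℝ ∞ (fun y => gop g e y) e.target := by
  have : (fun y => gop g e y) = fun y => ∑ i : Fin n, ∑ j : Fin n,
      coef g e y (EuclideanSpace.single i 1) (EuclideanSpace.single j 1) •
        (Matrix.toEuclideanCLM (𝕜 := ℝ) (Matrix.single i j (1 : ℝ)) : En n →L[ℝ] En n) := by
    funext y
    exact NCH_gop_sum g e y
  rw [this]
  refine ContDiffOn.sum fun i _ => ContDiffOn.sum fun j _ => ?_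
  exact (h1 n M g e he _ _).smul contDiffOn_const

theorem NCH (h1 : COE_stmt.{u}) (h2 : GOP_stmt.{u}) (h3 : GAU_stmt.{u}) : NCH_stmt.{u} := by
  intro n M _ _ _ g χ x r hr hN
  obtain ⟨hN1, hN2, hN3, hN4, hN5, hN6⟩ := id hN
  have hmem : ∀ y : En n, ‖y‖ < r → y ∈ χ.target := by
    intro y hy
    rw [hN2, mem_ball_zero_iff]
    exact hy
  have h0 : (0 : En n) ∈ χ.target := hmem 0 (by rw [norm_zero]; exact hr)
  obtain ⟨hG, hGau⟩ := h3 n M g χ x r hr hN
  have hinv : ∀ y ∈ χ.target, (Matrix.toEuclideanCLM (𝕜 := ℝ) (gmat g χ y)⁻¹ : En n →L[ℝ] En n) =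
      Ring.inverse (gop g χ y) := by
    intro y hy
    obtain ⟨_, _, _, k1, k2⟩ := h2 n M g χ hN1 y hy
    let U : (En n →L[ℝ] En n)ˣ :=
      ⟨gop g χ y, Matrix.toEuclideanCLM (𝕜 := ℝ) (gmat g χ y)⁻¹,
        ContinuousLinearMap.ext k2, ContinuousLinearMap.ext k1⟩
    have hU : gop g χ y = (U : En n →L[ℝ] En n) := rfl
    rw [hU, Ring.inverse_unit]
    rfl
  refine ⟨⟨fun y => Matrix.toEuclideanCLM (𝕜 := ℝ) (gmat g χ y)⁻¹, ?_, ?_, ?_, ?_⟩, ?_⟩
  · rw [← hN2]
    refine ContDiffOn.congr (f := fun y => Ring.inverse (gop g χ y)) ?_ hinv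
    intro y hy
    obtain ⟨_, _, _, k1, k2⟩ := h2 n M g χ hN1 y hy
    let U : (En n →L[ℝ] En n)ˣ :=
      ⟨gop g χ y, Matrix.toEuclideanCLM (𝕜 := ℝ) (gmat g χ y)⁻¹,
        ContinuousLinearMap.ext k2, ContinuousLinearMap.ext k1⟩
    have hU : ContDiffAt ℝ ∞ Ring.inverse (U : En n →L[ℝ] En n) := contDiffAt_ringInverse ℝ U
    exact ContDiffAt.comp_contDiffWithinAt (g := Ring.inverse) (f := fun y => gop g χ y) y hU
      (NCH_gop_smooth h1 g χ hN1 y hy)
  · intro y hy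
    obtain ⟨k0, ⟨k3, k4⟩, _, k1, k2⟩ := h2 n M g χ hN1 y (hmem y hy)
    constructor
    · intro v w
      calc inner ℝ (Matrix.toEuclideanCLM (𝕜 := ℝ) (gmat g χ y)⁻¹ v) w =
          inner ℝ (Matrix.toEuclideanCLM (𝕜 := ℝ) (gmat g χ y)⁻¹ v)
            (gop g χ y (Matrix.toEuclideanCLM (𝕜 := ℝ) (gmat g χ y)⁻¹ w)) := by rw [k2 w]
        _ = inner ℝ v (Matrix.toEuclideanCLM (𝕜 := ℝ) (gmat g χ y)⁻¹ w) := by
          rw [← k3, k2 v]
    · intro v hv
      have hne : Matrix.toEuclideanCLM (𝕜 := ℝ) (gmat g χ y)⁻¹ v ≠ 0 := by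
        intro h
        have := k2 v
        rw [h, map_zero] at this
        exact hv this.symm
      have := k4 _ hne
      rw [k2 v, real_inner_comm] at this
      exact this
  · intro y hy
    obtain ⟨k0, _, _, k1, k2⟩ := h2 n M g χ hN1 y (hmem y hy)
    have hy' : gop g χ y y = y := by
      refine ext_inner_right ℝ fun w => ?_
      rw [k0, hGau y w hy]
    show Matrix.toEuclideanCLM (𝕜 := ℝ) (gmat g χ y)⁻¹ y = y
    have := k1 y
    rw [hy'] at this
    exact this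
  · obtain ⟨k0, _, _, k1, k2⟩ := h2 n M g χ hN1 0 h0
    refine ContinuousLinearMap.ext fun v => ?_
    have hv : gop g χ 0 v = v := by
      refine ext_inner_right ℝ fun w => ?_
      rw [k0, hN5]
    show Matrix.toEuclideanCLM (𝕜 := ℝ) (gmat g χ 0)⁻¹ v = v
    have := k1 v
    rw [hv] at this
    exact this
  · intro y _
    rfl

end Pool.Agent.CRO
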