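import Pool.Agent.helper58.CRO.SpecG

/-!
# cro:GHL: `HasLen` in the normal chart
-/

set_option autoImplicit false

open scoped Manifold ContDiff Topology ENNReal
open MeasureTheory Set Bundle Filter

noncomputable section

namespace Pool.Agent.CRO

universe u

/-- **GHL** -/
theorem GHL (h1 : GDL_stmt.{u}) (h2 : GTR_stmt.{u}) (h3 : BAL_stmt.{u}) : GHL_stmt.{u} := by
  intro n M _ _ _ _ g χ m r r2 L 𝒢 hr hN hR hL hI
  intro c T ρ hT0 hTL hρ0 hρr hc hode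
  have a0 : (0 : ℝ) ∈ Icc 0 T := ⟨le_rfl, hT0⟩
  have aT : T ∈ Icc 0 T := ⟨hT0, le_rfl⟩
  have b1 := h3 n M g χ m r hr hN ρ (c 0).1 (hode 0 a0).1 hρr
  have b2 := h3 n M g χ m r hr hN ρ (c T).1 (hode T aT).1 hρr
  have c1 : gdist g m (χ.symm (c 0).1) < ENNReal.ofReal ρ := b1
  have c2 : gdist g m (χ.symm (c T).1) < ENNReal.ofReal ρ := b2
  have d1 := h1 n M g χ r r2 𝒢 hN.1 hN.2.1 hR hI c T hT0 (lt_of_lt_of_le hTL hL) hc
    (fun t ht => ⟨lt_of_lt_of_le (hode t ht).1 hρr, (hode t ht).2⟩)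
  have d2 := (h2 n M g (χ.symm (c 0).1) m (χ.symm (c T).1)).2
  rw [(h2 n M g (χ.symm (c 0).1) m m).1] at d2
  have d3 : ENNReal.ofReal (sp 𝒢 (c 0) * T) < ENNReal.ofReal (2 * ρ) := by
    refine lt_of_le_of_lt (d1.trans d2) ?_
    rw [two_mul, ENNReal.ofReal_add hρ0.le hρ0.le]
    exact ENNReal.add_lt_add c1 c2
  exact (ENNReal.ofReal_lt_ofReal_iff (by positivity)).1 d3

end Pool.Agent.CRO
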